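import Pool.Agent.ASE.Stmts2b

/-!
# Squad ASE, row RFF: the field `d8` of `Rs` at a reflection line
-/

open scoped BigOperators

noncomputable section

namespace Pool.Agent.PP.SE.H27

open Pool.Agent.Helper51_AWC Pool.Agent.Helper79_WRA Pool.Agent.PP Pool.Agent.PP.KF
open Pool.Agent.PP.K9 Pool.Agent.PP.K9.H97 Pool.Agent.PP.H75 Pool.Agent.PP.T3 Pool.Agent.PP.SO
open Pool.Agent.PP.SD Pool.Agent.PP.SE

attribute [local instance] Ideal.Quotient.field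

section aux

variable {V₀ G : Type} [CommGroup V₀] [Group G] {M : Ideal (integralClosure ℤ ℂ)} [M.IsMaximal]

theorem mp_mem {σ : MulAut V₀} {W : Subgroup V₀} (h : mp σ W = W) {w : V₀} (hw : w ∈ W) :
    σ w ∈ W := by
  have h1 : σ w ∈ mp σ W := ⟨w, hw, rfl⟩
  rwa [h] at h1

theorem mp_inv {σ : MulAut V₀} {W : Subgroup V₀} (h : mp σ W = W) : mp σ⁻¹ W = W := by
  apply le_antisymm
  · rintro _ ⟨w, hw, rfl⟩
    have hw' : w ∈ mp σ W := by rw [h]; exact hw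
    obtain ⟨v, hv, rfl⟩ := hw'
    have : (σ⁻¹ : MulAut V₀) (σ v) = v := by
      rw [← MulAut.mul_apply, inv_mul_cancel, MulAut.one_apply]
    change (σ⁻¹ : MulAut V₀) (σ v) ∈ W
    rw [this]
    exact hv
  · intro w hw
    refine ⟨σ w, mp_mem h hw, ?_⟩
    change (σ⁻¹ : MulAut V₀) (σ w) = w
    rw [← MulAut.mul_apply, inv_mul_cancel, MulAut.one_apply]

theorem reg_conj {ℓ : ℕ} (t x : G) : Reg ℓ (t⁻¹ * x * t) ↔ Reg ℓ x := by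
  have h : orderOf (t⁻¹ * x * t) = orderOf x := by
    have := orderOf_injective (MulAut.conj t⁻¹).toMonoidHom (MulAut.conj t⁻¹).injective x
    rw [← this]
    simp
  unfold Reg
  rw [h]

theorem rq_symm {ℓ : ℕ} {B : Bk (FF M) V₀ G} {W : Subgroup V₀} {χ ψ : G → ℂ}
    (h : rq ℓ B W χ ψ) : rq ℓ B W ψ χ := fun g hg hr => (h g hg hr).symm

theorem rq_trans {ℓ : ℕ} {B : Bk (FF M) V₀ G} {W : Subgroup V₀} {χ ψ φ : G → ℂ}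
    (h : rq ℓ B W χ ψ) (h' : rq ℓ B W ψ φ) : rq ℓ B W χ φ :=
  fun g hg hr => (h g hg hr).trans (h' g hg hr)

theorem rq_ac {ℓ : ℕ} {B : Bk (FF M) V₀ G} {W : Subgroup V₀} {χ ψ : G → ℂ} (σ : MulAut V₀)
    (h1 : ∀ g, g ∉ B.C W → χ g = 0) (h2 : ∀ g, g ∉ B.C W → ψ g = 0) (h : rq ℓ B W χ ψ) :
    rq ℓ B W (ac B σ χ) (ac B σ ψ) := by
  intro g _ hr
  unfold ac
  by_cases hc : (tt B σ)⁻¹ * g * tt B σ ∈ B.C W
  · exact h _ hc ((reg_conj _ _).2 hr)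
  · rw [h1 _ hc, h2 _ hc]

end aux

open Classical in
theorem rff : SnuStmt → ValStmt → AcbStmt → GeaStmt → RffStmt := by
  intro hsnu hval hacb hgea ℓ _ M _ hM h2 V₀ G _ _ _ _ E₀ hF B hB W hW N e O hCy D hD hEv g hg hgW
    z hz c
  obtain ⟨hfin, s1, s2, s3, s4⟩ := hsnu ℓ M hM h2 V₀ G E₀ hF B hB W hW N e O hCy
  obtain ⟨_, _, _, v1, _⟩ := hval ℓ M hM h2 V₀ G E₀ hF B hB W hW N e O hCy D hD
  obtain ⟨_, hac⟩ := hacb ℓ M hM h2 V₀ G E₀ hF B hB.toSb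
  have hg' : g⁻¹ ∈ E₀ := E₀.inv_mem hg
  have hgW' : mp g⁻¹ W = W := mp_inv hgW
  obtain ⟨-, -, a1, -⟩ := hac W g hg
  obtain ⟨-, -, a2, -⟩ := hac W g⁻¹ hg'
  obtain ⟨-, hpr, -⟩ := hgea ℓ V₀ E₀ hF W hW
  have hone : (fun _ => 1 : V₀ → ℂ) ∈ lk (kW E₀ W) :=
    ⟨⟨rfl, fun _ _ => by norm_num⟩, fun _ _ => rfl⟩
  have hn0 : (nS E₀ W : ℂ) ≠ 0 := by
    have h1 : 1 < nS E₀ W := hW.2
    exact_mod_cast (by omega : nS E₀ W ≠ 0)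
  have hl0 : (ℓ : ℂ) ≠ 0 := by
    exact_mod_cast (Fact.out : ℓ.Prime).ne_zero
  have hsq : ∀ χ ∈ Ch B W, χ ∈ N → (e χ : ℂ) * e χ = 1 := by
    intro χ hχ hN
    obtain ⟨ψ, ⟨hψ1, hψ2, hψ3⟩, -⟩ := hCy.mt _ hone χ hχ hN
    have h3 := (hCy.se ψ hψ1.1 χ hχ hψ3).1
    rcases (hCy.lv _ hone).sg ψ hψ1 with h | h
    · rw [← h3, h]; norm_num
    · rw [← h3, h]; norm_num
  have hcov : ∀ χ ∈ Ch B W, ∃ ν ∈ lk (kW E₀ W), χ ∈ Iv B W ν := by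
    intro χ hχ
    by_contra hc
    push Not at hc
    have h := s1 (fun ψ => if ψ = χ then 1 else 0)
    have hl : ∑ᶠ ψ ∈ Ch B W, (if ψ = χ then (1 : ℂ) else 0) = 1 := by
      rw [finsum_mem_eq_finite_toFinset_sum _ hfin, Finset.sum_ite_eq' hfin.toFinset χ,
        if_pos (hfin.mem_toFinset.2 hχ)]
    have hr : ∑ᶠ ν ∈ lk (kW E₀ W), ∑ᶠ ψ ∈ Iv B W ν, (if ψ = χ then (1 : ℂ) else 0) = 0 := by
      rw [finsum_mem_congr rfl (g := fun _ => (0 : ℂ)) (fun ν hν => ?_), finsum_mem_zero]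
      rw [finsum_mem_congr rfl (g := fun _ => (0 : ℂ)) (fun ψ hψ => ?_), finsum_mem_zero]
      exact if_neg (fun hh : ψ = χ => hc ν hν (hh ▸ hψ))
    rw [hl, hr] at h
    exact one_ne_zero h
  have hnu : ∀ χ ∈ Ch B W, ∀ w ∈ W, ∀ w' ∈ W, nu B χ (w * w') = nu B χ w * nu B χ w' := by
    intro χ hχ w hw w' hw'
    obtain ⟨ν, hν, hI⟩ := hcov χ hχ
    rw [hI.2 _ (W.mul_mem hw hw'), hI.2 _ hw, hI.2 _ hw', hν.1.2]
  have hmem' : ∀ χ ∈ Ch B W, ac B g⁻¹ χ ∈ Ch B W := by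
    intro χ hχ
    have := (a2 χ hχ).1
    rwa [hgW'] at this
  -- the function f
  set f : (G → ℂ) → ℂ := fun χ =>
    (if rq ℓ B W χ (ac B g⁻¹ χ) then 1 else 0) - (nS E₀ W : ℂ)⁻¹ with hf
  have hfrq : ∀ χ ∈ Ch B W, ∀ ψ ∈ Ch B W, χ ∈ N → ψ ∈ N → rq ℓ B W χ ψ → f χ = f ψ := by
    intro χ hχ ψ hψ _ _ h
    have h1 : rq ℓ B W (ac B g⁻¹ χ) (ac B g⁻¹ ψ) := rq_ac _ hχ.1 hψ.1 h
    have h3 : rq ℓ B W χ (ac B g⁻¹ χ) ↔ rq ℓ B W ψ (ac B g⁻¹ ψ) :=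
      ⟨fun h4 => rq_trans (rq_trans (rq_symm h) h4) h1,
        fun h4 => rq_trans (rq_trans h h4) (rq_symm h1)⟩
    simp only [hf, h3]
  have hpz : pr ℓ E₀ W c * z ∈ W := W.mul_mem (hpr c).1 hz
  have e1 : ∑ᶠ χ ∈ Ch B W, cv (fm ℓ E₀ B D W c) χ * nu B χ z * D.R W χ (ac B g⁻¹ χ) =
      ∑ᶠ χ ∈ {χ | χ ∈ Ch B W ∧ χ ∈ N},
        cv (fm ℓ E₀ B D W c) χ * nu B χ z * D.R W χ (ac B g⁻¹ χ) := by
    apply finsum_mem_inter_support_eq'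
    intro χ hχ
    refine ⟨fun h => ⟨h, ?_⟩, fun h => h.1⟩
    by_contra hN
    apply hχ
    show cv (fm ℓ E₀ B D W c) χ * nu B χ z * D.R W χ (ac B g⁻¹ χ) = 0
    rw [hD.dR χ h _ (hmem' χ h), if_neg (fun hh => hN hh.1), mul_zero]
  have e2 : ∑ᶠ χ ∈ {χ | χ ∈ Ch B W ∧ χ ∈ N},
        cv (fm ℓ E₀ B D W c) χ * nu B χ z * D.R W χ (ac B g⁻¹ χ) =
      ∑ᶠ χ ∈ {χ | χ ∈ Ch B W ∧ χ ∈ N}, ((nS E₀ W : ℂ) * (ux D.U W c : ℚ) / ℓ) *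
        (nu B χ (pr ℓ E₀ W c * z) * f χ) := by
    apply finsum_mem_congr rfl
    intro χ hχ
    have h1 := (v1 χ hχ.1 hχ.2).2 c
    have h3 := hEv g⁻¹ hg' hgW' χ hχ.1
    rw [h1, hD.dR χ hχ.1 _ (hmem' χ hχ.1), if_pos ⟨hχ.2, h3.1.2 hχ.2⟩, h3.2,
      hnu χ hχ.1 _ (hpr c).1 _ hz, hsq χ hχ.1 hχ.2]
    simp only [hf]
    ring
  rw [e1, e2, ← mul_finsum_mem, (s3 f hfrq).2 _ hpz]
  by_cases hpc : pr ℓ E₀ W c * z = 1
  swap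
  · rw [if_neg hpc, if_neg hpc, mul_zero]
  rw [if_pos hpc, if_pos hpc]
  obtain ⟨t1, t2, -⟩ := s4 _ hone
  have hS : ∑ᶠ χ ∈ {χ | χ ∈ Iv B W (fun _ => 1) ∧ χ ∈ N}, f χ = ((D.fx W g : ℚ) : ℂ) - 1 := by
    have key : ∀ χ ∈ Iv B W (fun _ => 1), χ ∈ N →
        (rq ℓ B W χ (ac B g⁻¹ χ) ↔ ac B g χ = χ) := by
      intro χ hI hN
      have hI' : ac B g⁻¹ χ ∈ Iv B W (fun _ => 1) := by
        refine ⟨hmem' χ hI.1, fun w hw => ?_⟩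
        have h1 := (a2 χ hI.1).2.2.2.1 (g w)
        have h3 : (g⁻¹ : MulAut V₀) (g w) = w := by
          rw [← MulAut.mul_apply, inv_mul_cancel, MulAut.one_apply]
        rw [h3] at h1
        rw [h1]
        exact hI.2 _ (mp_mem hgW hw)
      have hN' : ac B g⁻¹ χ ∈ N := (hEv g⁻¹ hg' hgW' χ hI.1).1.2 hN
      constructor
      · intro h
        have h4 : ac B g⁻¹ χ = χ :=
          (hCy.mt _ hone χ hI.1 hN).unique ⟨hI', hN', rq_symm h⟩ ⟨hI, hN, fun _ _ _ => rfl⟩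
        have h5 := (a2 χ hI.1).2.2.1 g hg
        rw [mul_inv_cancel, (a2 χ hI.1).2.1, h4] at h5
        exact h5.symm
      · intro h
        have h5 := (a1 χ hI.1).2.2.1 g⁻¹ hg'
        rw [inv_mul_cancel, (a1 χ hI.1).2.1, h] at h5
        rw [← h5]
        exact fun _ _ _ => rfl
    rw [hD.df g hg hgW, finsum_mem_eq_finite_toFinset_sum _ t2, Finset.sum_sub_distrib,
      Finset.sum_const, ← Set.ncard_eq_toFinset_card _ t2, t1, nsmul_eq_mul,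
      mul_inv_cancel₀ hn0]
    congr 1
    rw [Finset.sum_boole]
    have h6 : {χ | χ ∈ Iv B W (fun _ => 1) ∧ χ ∈ N ∧ ac B g χ = χ} =
        ((t2.toFinset.filter fun χ => rq ℓ B W χ (ac B g⁻¹ χ) : Finset (G → ℂ)) :
          Set (G → ℂ)) := by
      ext χ
      simp only [Set.mem_ofPred_eq, Finset.coe_filter, Set.Finite.mem_toFinset]
      constructor
      · rintro ⟨h1, h3, h4⟩
        exact ⟨⟨h1, h3⟩, (key χ h1 h3).2 h4⟩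
      · rintro ⟨⟨h1, h3⟩, h4⟩
        exact ⟨h1, h3, (key χ h1 h3).1 h4⟩
    rw [h6, Set.ncard_coe_finset]
    push_cast
    rfl
  rw [hS]
  field_simp

end Pool.Agent.PP.SE.H27
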